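import Pool.Agent.H78.STN.Stmts

/-!
# Board STN, row DIV: denominators
-/

set_option autoImplicit false

open Polynomial

namespace Pool.STN

/-- one power -/
theorem div_pow (n i j : ℕ) (e c z : ℤ) (he : e ≠ 0) (m : ℤ) (hm : m = (j : ℤ) - 3 * n + i)
    (h : 3 ^ n * c * e ^ j = e ^ (3 * n) * z) :
    (3 : ℚ) ^ n * (c : ℚ) * (e : ℚ) ^ m = ((z * e ^ i : ℤ) : ℚ) := by
  have he' : (e : ℚ) ≠ 0 := by exact_mod_cast he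
  have h1 : (e : ℚ) ^ m = (e : ℚ) ^ j * (e : ℚ) ^ i / (e : ℚ) ^ (3 * n) := by
    rw [hm, zpow_add₀ he', zpow_sub₀ he', zpow_natCast, zpow_natCast]
    have h2 : ((3 : ℤ) * (n : ℤ)) = ((3 * n : ℕ) : ℤ) := by push_cast; ring
    rw [h2, zpow_natCast]
    ring
  have h3 : (3 : ℚ) ^ n * (c : ℚ) * (e : ℚ) ^ j = (e : ℚ) ^ (3 * n) * (z : ℚ) := by exact_mod_cast h
  have h4 : (e : ℚ) ^ (3 * n) ≠ 0 := pow_ne_zero _ he'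
  rw [h1]
  push_cast
  calc (3 : ℚ) ^ n * (c : ℚ) * ((e : ℚ) ^ j * (e : ℚ) ^ i / (e : ℚ) ^ (3 * n)) =
      ((3 : ℚ) ^ n * (c : ℚ) * (e : ℚ) ^ j) * (e : ℚ) ^ i / (e : ℚ) ^ (3 * n) := by ring
    _ = (z : ℚ) * (e : ℚ) ^ i := by
        rw [h3]
        field_simp

theorem div_term (h2 : INTStmt) (n i j : ℕ) (u v : ℤ) (hi : i ≤ 2) (hj : j ≤ 6 * n) :
    ∃ z : ℤ, ((3 ^ n * Nat.lcmUpto (3 * n + 2) : ℕ) : ℚ) *
      ((((Pz ^ n).coeff j : ℤ) : ℚ) * ph u v ((j : ℤ) + (-3 * n - 1 + i) + 1)) = z := by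
  obtain ⟨z6, hz6⟩ := h2 n j 6 (Or.inl rfl)
  obtain ⟨z8, hz8⟩ := h2 n j 8 (Or.inr (Or.inl rfl))
  obtain ⟨z9, hz9⟩ := h2 n j 9 (Or.inr (Or.inr rfl))
  generalize (Pz ^ n).coeff j = c at hz6 hz8 hz9 ⊢
  obtain ⟨m, hm⟩ : ∃ m : ℤ, m = (j : ℤ) + (-3 * n - 1 + i) + 1 := ⟨_, rfl⟩
  rw [← hm]
  have hm' : m = (j : ℤ) - 3 * n + i := by rw [hm]; ring
  by_cases hm0 : m = 0
  · refine ⟨0, ?_⟩
    rw [ph, hm0]
    simp
  · have e6 := div_pow n i j 6 c z6 (by norm_num) m hm' hz6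
    have e8 := div_pow n i j 8 c z8 (by norm_num) m hm' hz8
    have e9 := div_pow n i j 9 c z9 (by norm_num) m hm' hz9
    have hd : m.natAbs ∣ Nat.lcmUpto (3 * n + 2) := by
      have a1 : 1 ≤ m.natAbs := Int.natAbs_pos.2 hm0
      have a2 : m.natAbs ≤ 3 * n + 2 := by omega
      rw [Nat.lcmUpto]
      exact Finset.dvd_lcm (f := id) (Finset.mem_Icc.2 ⟨a1, a2⟩)
    have hd' : m ∣ ((Nat.lcmUpto (3 * n + 2) : ℕ) : ℤ) := Int.natAbs_dvd.1 (by exact_mod_cast hd)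
    obtain ⟨k, hk⟩ := hd'
    have hk' : ((Nat.lcmUpto (3 * n + 2) : ℕ) : ℚ) = (m : ℚ) * (k : ℚ) := by exact_mod_cast hk
    have hmq : (m : ℚ) ≠ 0 := by exact_mod_cast hm0
    refine ⟨k * (-u * (z6 * 6 ^ i) + (u - v) * (z8 * 8 ^ i) + v * (z9 * 9 ^ i)), ?_⟩
    push_cast at e6 e8 e9 ⊢
    rw [ph, hk']
    calc (3 : ℚ) ^ n * ((m : ℚ) * (k : ℚ)) * ((c : ℚ) *
          ((-(u : ℚ) * (6 : ℚ) ^ m + ((u : ℚ) - v) * (8 : ℚ) ^ m + (v : ℚ) * (9 : ℚ) ^ m) / (m : ℚ))) =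
        (k : ℚ) * (-(u : ℚ) * ((3 : ℚ) ^ n * (c : ℚ) * (6 : ℚ) ^ m) +
          ((u : ℚ) - v) * ((3 : ℚ) ^ n * (c : ℚ) * (8 : ℚ) ^ m) +
          (v : ℚ) * ((3 : ℚ) ^ n * (c : ℚ) * (9 : ℚ) ^ m)) := by
          field_simp
      _ = _ := by rw [e6, e8, e9]

theorem DIV_thm (h1 : PZQStmt) (h2 : INTStmt) : DIVStmt := by
  intro n i u v _ hi
  have hsum : Nn u v (Pq ^ n) (-3 * n - 1 + i) = ∑ j ∈ (Pq ^ n).support,
      (Pq ^ n).coeff j * ph u v ((j : ℤ) + (-3 * n - 1 + i) + 1) := rfl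
  have hmem : ((3 ^ n * Nat.lcmUpto (3 * n + 2) : ℕ) : ℚ) * Nn u v (Pq ^ n) (-3 * n - 1 + i) ∈
      (Int.castRingHom ℚ).range := by
    rw [hsum, Finset.mul_sum]
    refine Subring.sum_mem _ fun j hj => ?_
    obtain ⟨e1, e2⟩ := h1 n j
    have hj6 : j ≤ 6 * n := by
      by_contra hc
      rw [not_le] at hc
      rw [mem_support_iff, e1, e2 hc, Int.cast_zero] at hj
      exact hj rfl
    rw [e1]
    obtain ⟨z, hz⟩ := div_term h2 n i j u v hi hj6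
    exact ⟨z, by rw [hz]; rfl⟩
  obtain ⟨z, hz⟩ := hmem
  exact ⟨z, by rw [← hz]; rfl⟩

end Pool.STN
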