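import Pool.Agent.H78.STN.Stmts

/-!
# Board STN, row NAD: linearity and shift
-/

set_option autoImplicit false

open Polynomial

namespace Pool.STN

theorem nad_add (u v : ℤ) (A B : ℚ[X]) (s : ℤ) : Nn u v (A + B) s = Nn u v A s + Nn u v B s := by
  rw [Nn, Nn, Nn]
  exact sum_add_index A B _ (fun i => zero_mul _) (fun a b₁ b₂ => add_mul _ _ _)

theorem nad_mon (u v : ℤ) (n : ℕ) (c : ℚ) (s : ℤ) :
    Nn u v (monomial n c) s = c * ph u v ((n : ℤ) + s + 1) := by
  rw [Nn]
  exact sum_monomial_index c _ (zero_mul _)

theorem NAD_thm : NADStmt := by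
  refine ⟨nad_add, ?_, ?_⟩
  · intro u v A c s
    induction A using Polynomial.induction_on' with
    | add p q hp hq => rw [mul_add, nad_add, nad_add, hp, hq, mul_add]
    | monomial n a => rw [C_mul_monomial, nad_mon, nad_mon, mul_assoc]
  · intro u v A d s
    induction A using Polynomial.induction_on' with
    | add p q hp hq => rw [mul_add, nad_add, nad_add, hp, hq]
    | monomial n a =>
      rw [X_pow_mul_monomial, nad_mon, nad_mon]
      congr 2
      push_cast
      ring

end Pool.STN
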